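import Pool.Agent.helper58.BR.SpecN

/-!
# Project BR (MP_baa4d7_al), row PRI: polynomials constant on the primitive roots of unity
-/

set_option autoImplicit false

namespace Pool.Agent.BR

open Pool.Agent.helper58.DC Pool.Agent.DI Pool.Agent.GR Pool.Agent.OB Pool.Agent.DR Pool.Agent.FI Pool.Agent.FI3 Pool.Agent.FI4 Pool.Agent.LE

open Polynomial in
theorem PRI_sum (n : ℕ) (hn : 0 < n) (P : Polynomial ℤ) :
    ∃ r : ℚ, ∑ μ ∈ primitiveRoots n ℂ, Polynomial.aeval μ P = (r : ℂ) := by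
  have hn0 : NeZero n := ⟨hn.ne'⟩
  have hcyc : IsCyclotomicExtension {n} ℚ (CyclotomicField n ℚ) :=
    CyclotomicField.isCyclotomicExtension n ℚ
  have hζ : IsPrimitiveRoot (IsCyclotomicExtension.zeta n ℚ (CyclotomicField n ℚ)) n :=
    IsCyclotomicExtension.zeta_spec n ℚ (CyclotomicField n ℚ)
  have hirr : Irreducible (cyclotomic n ℚ) := cyclotomic.irreducible_rat hn
  have h1 := trace_eq_sum_embeddings (K := ℚ) (L := CyclotomicField n ℚ) ℂ
    (x := aeval (IsCyclotomicExtension.zeta n ℚ (CyclotomicField n ℚ)) P)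
  refine ⟨Algebra.trace ℚ (CyclotomicField n ℚ) (aeval (IsCyclotomicExtension.zeta n ℚ (CyclotomicField n ℚ)) P), ?_⟩
  have h3 : ((Algebra.trace ℚ (CyclotomicField n ℚ)
      (aeval (IsCyclotomicExtension.zeta n ℚ (CyclotomicField n ℚ)) P) : ℚ) : ℂ) =
      algebraMap ℚ ℂ (Algebra.trace ℚ (CyclotomicField n ℚ)
      (aeval (IsCyclotomicExtension.zeta n ℚ (CyclotomicField n ℚ)) P)) := rfl
  rw [h3, h1, ← Finset.sum_coe_sort (primitiveRoots n ℂ)]
  refine (Fintype.sum_equiv (hζ.embeddingsEquivPrimitiveRoots ℂ hirr) _ _ ?_).symm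
  intro σ
  rw [IsPrimitiveRoot.embeddingsEquivPrimitiveRoots_apply_coe]
  exact (aeval_algHom_apply (σ.restrictScalars ℤ) _ P).symm

theorem PRI : PRI_stmt := by
  intro n hn Q ζ hζ hs
  have hn0 : NeZero n := ⟨hn.ne'⟩
  obtain ⟨r, hr⟩ := PRI_sum n hn Q
  have h1 : ∀ μ ∈ primitiveRoots n ℂ, Polynomial.aeval μ Q = Polynomial.aeval ζ Q := by
    intro μ hμ
    have h2 : IsPrimitiveRoot μ n := (mem_primitiveRoots hn).1 hμ
    obtain ⟨i, -, hi, rfl⟩ := hζ.isPrimitiveRoot_iff.1 h2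
    exact hs i hi
  rw [Finset.sum_congr rfl h1, Finset.sum_const, hζ.card_primitiveRoots, nsmul_eq_mul] at hr
  have hφ : (Nat.totient n : ℂ) ≠ 0 := by
    exact_mod_cast (Nat.totient_pos.2 hn).ne'
  have hv : Polynomial.aeval ζ Q = ((r / Nat.totient n : ℚ) : ℂ) := by
    push_cast
    rw [← hr, mul_div_cancel_left₀ _ hφ]
  have hint : IsIntegral ℤ (Polynomial.aeval ζ Q) :=
    adjoin_le_integralClosure (hζ.isIntegral hn) (Polynomial.aeval_mem_adjoin_singleton ℤ _)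
  rw [hv] at hint ⊢
  have h2 : IsIntegral ℤ (r / Nat.totient n : ℚ) := by
    have h3 : ((r / Nat.totient n : ℚ) : ℂ) = algebraMap ℚ ℂ (r / Nat.totient n) := rfl
    rw [h3] at hint
    exact (isIntegral_algebraMap_iff (algebraMap ℚ ℂ).injective).1 hint
  obtain ⟨a, ha⟩ := IsIntegrallyClosed.isIntegral_iff.mp h2
  refine ⟨a, ?_⟩
  rw [← ha]
  simp

end Pool.Agent.BR
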