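import Pool.Agent.helper24.BR.SpecA
import Pool.Agent.helper59.FI.Base

/-!
# Project BR (MP_baa4d7_al), row ABD: divisibility of the sums over the tuples
-/

set_option autoImplicit false

namespace Pool.Agent.BR

open Pool.Agent.helper58.DC Pool.Agent.DI Pool.Agent.GR Pool.Agent.OB Pool.Agent.DR Pool.Agent.FI Pool.Agent.FI3 Pool.Agent.FI4 Pool.Agent.LE

section

variable {G : Type} [Group G]

/-- the conjugate of a tuple -/
def ABD_c (a : G) {q : ℕ} (t : Fin q → G) : Fin q → G := fun i => a * t i * a⁻¹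

theorem ABD_prod (a : G) {q : ℕ} (t : Fin q → G) : (List.ofFn (ABD_c a t)).prod = a * (List.ofFn t).prod * a⁻¹ := by
  have h1 : List.ofFn (ABD_c a t) = (List.ofFn t).map (MulAut.conj a) := by
    rw [List.map_ofFn]
    rfl
  rw [h1, ← map_list_prod]
  rfl

theorem ABD_mem (A : Subgroup G) {q : ℕ} (t : Fin q → G) (x : G) : x ∈ st A t ↔ x ∈ A ∧ ∀ i, t i * x = x * t i := by
  unfold st
  rw [Subgroup.mem_inf, Subgroup.mem_centralizer_iff]
  constructor
  · rintro ⟨h1, h2⟩
    exact ⟨h1, fun i => h2 _ ⟨i, rfl⟩⟩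
  · rintro ⟨h1, h2⟩
    refine ⟨h1, ?_⟩
    rintro _ ⟨i, rfl⟩
    exact h2 i

theorem ABD_st {A : Subgroup G} (com : ∀ a ∈ A, ∀ b ∈ A, a * b = b * a) {a : G} (ha : a ∈ A) {q : ℕ} (t : Fin q → G) :
    st A (ABD_c a t) = st A t := by
  ext x
  rw [ABD_mem, ABD_mem]
  refine and_congr_right fun hx => forall_congr' fun i => ?_
  have h1 : a⁻¹ * x = x * a⁻¹ := com _ (A.inv_mem ha) _ hx
  have h2 : x * a = a * x := com _ hx _ ha
  have h3 : ABD_c a t i * x = a * (t i * x) * a⁻¹ := by
    show a * t i * a⁻¹ * x = _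
    rw [mul_assoc (a * t i), h1]
    group
  have h4 : x * ABD_c a t i = a * (x * t i) * a⁻¹ := by
    show x * (a * t i * a⁻¹) = _
    rw [← mul_assoc, ← mul_assoc, h2]
    group
  rw [h3, h4]
  constructor
  · intro h
    exact mul_left_cancel (mul_right_cancel h)
  · intro h
    rw [h]

end

theorem ABD (hLLI : LLI_stmt) (hREP : REP_stmt) : ABD_stmt := by
  classical
  intro p M hM G _ _ D x θ χ hLo l ψ hψ A hA com w hw k hk S hS q
  have hSA : A ≤ cz S := by
    intro a ha
    rw [Subgroup.mem_centralizer_iff]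
    exact fun b hb => com b (hS hb) a ha
  have hSp : IsPGroup p S := hA.to_le hS
  have hScom : ∀ a ∈ S, ∀ b ∈ S, a * b = b * a := fun a ha b hb => com a (hS ha) b (hS hb)
  have hkS : LC S k := ⟨hk.1, fun u hu v hv => hk.2 u (hS hu) v (hS hv)⟩
  have hwS : w ∈ cz S := by
    rw [Subgroup.mem_centralizer_iff] at hw ⊢
    exact fun b hb => hw b (hS hb)
  obtain ⟨hfin, hrep, -, hBB, -⟩ := hREP p M hM G (cz S)
  obtain ⟨T, hT⟩ : ∃ T : (Fin q → G) → ℂ, ∀ t, T t = ∑ᶠ u ∈ (S : Set G), k u * Wt M D θ l S u t * ψ (u * w * (List.ofFn t).prod) := ⟨_, fun t => rfl⟩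
  have hTeq : ∑ᶠ t ∈ {t : Fin q → G | st A t = S}, ∑ᶠ u ∈ (S : Set G), k u * Wt M D θ l S u t * ψ (u * w * (List.ofFn t).prod) =
      ∑ᶠ t ∈ {t : Fin q → G | st A t = S}, T t := finsum_congr fun t => finsum_congr fun _ => (hT t).symm
  rw [hTeq, ← finsum_set_coe_eq_finsum_mem]
  -- invariance
  have hWt : ∀ a ∈ A, ∀ (u : G) (t : Fin q → G), Wt M D θ l S u (ABD_c a t) = Wt M D θ l S u t := by
    intro a ha u t
    refine finsum_congr fun e => finsum_congr fun he => ?_
    congr 1
    refine Finset.prod_congr rfl fun i _ => ?_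
    exact (hBB e he).1.1 a (hSA ha) (t i)
  have hTinv : ∀ a ∈ A, ∀ t : Fin q → G, T (ABD_c a t) = T t := by
    intro a ha t
    rw [hT, hT]
    refine finsum_congr fun u => finsum_congr fun hu => ?_
    rw [hWt a ha, ABD_prod]
    congr 1
    have h1 : u * w * (a * (List.ofFn t).prod * a⁻¹) = a * (u * w * (List.ofFn t).prod) * a⁻¹ := by
      have h2 : a * u = u * a := com a ha u (hS hu)
      have h3 : a * w = w * a := (Subgroup.mem_centralizer_iff.1 hw) a ha
      have h4 : a * (u * w * (List.ofFn t).prod) = u * w * (a * (List.ofFn t).prod) := by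
        rw [← mul_assoc a, ← mul_assoc a, h2, mul_assoc u a w, h3]
        group
      rw [h4]
      group
    rw [h1]
    exact IrrOn_conj hψ (Subgroup.mem_top a) _
  let Z : Type := {t : Fin q → G | st A t = S}
  let act : MulAction A Z :=
    { smul := fun a z => ⟨ABD_c (a : G) z.1, (ABD_st com a.2 z.1).trans z.2⟩
      one_smul := by
        intro z
        apply Subtype.ext
        funext i
        show (1 : G) * z.1 i * (1 : G)⁻¹ = z.1 i
        rw [inv_one, mul_one, one_mul]
      mul_smul := by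
        intro a b z
        apply Subtype.ext
        funext i
        show ((a : G) * (b : G)) * z.1 i * ((a : G) * (b : G))⁻¹ = (a : G) * ((b : G) * z.1 i * (b : G)⁻¹) * (a : G)⁻¹
        group }
  have _ : Fintype A := Fintype.ofFinite A
  have _ : Fintype Z := Fintype.ofFinite Z
  have hsum : ∑ᶠ z : Z, T z.1 = ∑ z : Z, T z.1 := finsum_eq_sum_of_fintype _
  have hgoal : ∑ᶠ i : ({t : Fin q → G | st A t = S} : Set (Fin q → G)), T i.1 = ∑ z : Z, T z.1 := hsum
  rw [hgoal]
  refine FRB_orb hM A Z (fun z => T z.1) (fun a z => hTinv a a.2 z.1) fun z => ?_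
  -- the stabiliser
  have hst : Nat.card (MulAction.stabilizer A z) = Nat.card S := by
    have h1 : MulAction.stabilizer A z = S.subgroupOf A := by
      ext a
      rw [MulAction.mem_stabilizer_iff, Subgroup.mem_subgroupOf]
      have h2 : ((a : G) ∈ S) ↔ ∀ i, z.1 i * (a : G) = a * z.1 i := by
        have h3 : (a : G) ∈ S ↔ (a : G) ∈ st A z.1 := by
          have h4 : st A z.1 = S := z.2
          rw [h4]
        rw [h3, ABD_mem]
        exact ⟨fun h => h.2, fun h => ⟨a.2, h⟩⟩
      rw [h2]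
      constructor
      · intro h i
        have h5 : (a : G) * z.1 i * (a : G)⁻¹ = z.1 i := congrFun (congrArg Subtype.val h) i
        rw [mul_inv_eq_iff_eq_mul] at h5
        exact h5.symm
      · intro h
        apply Subtype.ext
        funext i
        show (a : G) * z.1 i * (a : G)⁻¹ = z.1 i
        rw [mul_inv_eq_iff_eq_mul]
        exact (h i).symm
    rw [h1]
    exact Nat.card_congr (Subgroup.subgroupOfEquivOfLe hS).toEquiv
  rw [hst]
  obtain ⟨t, ht⟩ := z
  show IntAt M (T t / Nat.card S)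
  have hct : ∀ i, t i ∈ cz S := by
    intro i
    rw [Subgroup.mem_centralizer_iff]
    intro b hb
    have h1 : b ∈ st A t := by
      have h2 : st A t = S := ht
      rw [h2]
      exact hb
    exact (((ABD_mem A t b).1 h1).2 i).symm
  have hc : w * (List.ofFn t).prod ∈ cz S := by
    refine (cz S).mul_mem hwS (Subgroup.list_prod_mem _ fun y hy => ?_)
    obtain ⟨i, rfl⟩ := (List.mem_ofFn' _ _).1 hy
    exact hct i
  have hexp : T t / Nat.card S = ∑ᶠ e ∈ BB M (cz S), (∏ i, e (t i)) *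
      ((∑ᶠ u ∈ (S : Set G), k u * Lam M D θ l u (rep M (cz S) e) * ψ (u * (w * (List.ofFn t).prod))) / Nat.card S) := by
    have hSf : (S : Set G).Finite := Set.toFinite _
    rw [hT, finsum_mem_eq_finite_toFinset_sum _ hSf, finsum_mem_eq_finite_toFinset_sum _ hfin]
    have e1 : ∀ u, Wt M D θ l S u t = ∑ e ∈ hfin.toFinset, Lam M D θ l u (rep M (cz S) e) * ∏ i, e (t i) := fun u => finsum_mem_eq_finite_toFinset_sum _ hfin
    have e2 : ∀ e, ∑ᶠ u ∈ (S : Set G), k u * Lam M D θ l u (rep M (cz S) e) * ψ (u * (w * (List.ofFn t).prod)) =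
        ∑ u ∈ hSf.toFinset, k u * Lam M D θ l u (rep M (cz S) e) * ψ (u * (w * (List.ofFn t).prod)) := fun e => finsum_mem_eq_finite_toFinset_sum _ hSf
    calc (∑ u ∈ hSf.toFinset, k u * Wt M D θ l S u t * ψ (u * w * (List.ofFn t).prod)) / Nat.card S =
        ∑ u ∈ hSf.toFinset, ∑ e ∈ hfin.toFinset, (∏ i, e (t i)) * (k u * Lam M D θ l u (rep M (cz S) e) * ψ (u * (w * (List.ofFn t).prod)) / Nat.card S) := by
          rw [Finset.sum_div]
          refine Finset.sum_congr rfl fun u _ => ?_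
          rw [e1 u, Finset.mul_sum, Finset.sum_mul, Finset.sum_div]
          refine Finset.sum_congr rfl fun e _ => ?_
          rw [mul_assoc u w]
          ring
      _ = ∑ e ∈ hfin.toFinset, ∑ u ∈ hSf.toFinset, (∏ i, e (t i)) * (k u * Lam M D θ l u (rep M (cz S) e) * ψ (u * (w * (List.ofFn t).prod)) / Nat.card S) :=
          Finset.sum_comm
      _ = _ := by
          refine Finset.sum_congr rfl fun e _ => ?_
          rw [e2 e, Finset.sum_div, Finset.mul_sum]
  rw [hexp]
  refine IntAt.finsum_mem hM fun e he => IntAt.mul hM (IntAt.prod hM _ fun i _ => (hBB e he).2.2.1 _) ?_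
  exact (hLLI p M hM G D x θ χ hLo l S hSp hScom (rep M (cz S) e) (hrep e he).1).2 k hkS _ hc ψ hψ

end Pool.Agent.BR
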