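import Pool.Agent.helper58.BR.SpecN

/-!
# Project BR (MP_baa4d7_al), row PDV: fractions with a power of `p` in the denominator
-/

set_option autoImplicit false

namespace Pool.Agent.BR

open Pool.Agent.helper58.DC Pool.Agent.DI Pool.Agent.GR Pool.Agent.OB Pool.Agent.DR Pool.Agent.FI Pool.Agent.FI3 Pool.Agent.FI4 Pool.Agent.LE

theorem PDV_int {p : ℕ} {M : Ideal (integralClosure ℤ ℂ)} (hM : Setup p M) (a : ℤ) (h : InM M (a : ℂ)) : (p : ℤ) ∣ a := by
  have h1 : InM M ((a.natAbs : ℕ) : ℂ) := by
    rcases Int.natAbs_eq a with h2 | h2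
    · rw [h2, Int.cast_natCast] at h
      exact h
    · rw [h2] at h
      have h3 := h.neg
      rw [Int.cast_neg, neg_neg, Int.cast_natCast] at h3
      exact h3
  exact Int.natCast_dvd.2 ((InM.natCast hM _).1 h1)

theorem PDV : PDV_stmt := by
  intro p M hM N z
  induction N with
  | zero =>
    intro a _ h
    rw [pow_zero, one_mul] at h
    exact ⟨a, h⟩
  | succ N ih =>
    intro a hz h
    have h1 : (a : ℂ) = (p : ℂ) * ((p : ℂ) ^ N * z) := by
      rw [← h]
      ring
    have h2 : InM M (a : ℂ) := by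
      rw [h1]
      exact InM.mul_right hM (InM.prime_mem hM) (IntAt.mul hM (IntAt.pow hM (IntAt.natCast hM p) N) hz)
    obtain ⟨b, hb⟩ := PDV_int hM a h2
    apply ih b hz
    rw [hb] at h1
    push_cast at h1
    exact (mul_left_cancel₀ hM.p_ne h1).symm

end Pool.Agent.BR
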